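import Pool.Agent.R895.Red
import Pool.Agent.K3h69.KB.Stm

/-!
# Brick HKZ of project KB (helper69, MP_9f99c5_ag)

Reduced bases over the Eisenstein integers with the minimality of every step; the proof is that
of `R895.exists_red`, with the last property added.
-/

set_option autoImplicit false

namespace Pool.Agent.K3h41.KB

open Matrix Pool.Agent.R895

/-- Reduction theory, with the minimality of every step. -/
theorem exists_hkz (hU : Pool.Agent.K3h69.KB.S_UNI) :
    ∀ (n : ℕ) (M : Matrix (Fin n) (Fin n) ℂ), Pd M →
    ∃ (g : Matrix (Fin n) (Fin n) ℂ) (x : Fin n → Fin n → ℂ) (m : Fin n → ℝ), IsGL g ∧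
      (∀ i, 0 < m i) ∧ (∀ i j : Fin n, (i : ℕ) + 1 = j → 2 / 3 * m i ≤ m j) ∧
      (∀ i, x i i = 1) ∧ (∀ i j, j < i → x i j = 0) ∧
      (∀ i j, i < j → Complex.normSq (x i j) ≤ 1 / 3) ∧
      gᴴ * M * g = ∑ i, (m i : ℂ) • vecMulVec (x i) (star (x i)) ∧
      ∀ (k : Fin n) (w : Fin n → ℂ), IsLat w → (∃ j, k ≤ j ∧ w j ≠ 0) →
        m k ≤ ∑ i ∈ Finset.univ.filter (k ≤ ·), m i * Complex.normSq (star (x i) ⬝ᵥ w) := by
  intro n
  induction n with
  | zero =>
    intro M _
    exact ⟨1, fun i => i.elim0, fun i => i.elim0, IsGL.one, fun i => i.elim0, fun i => i.elim0,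
      fun i => i.elim0, fun i => i.elim0, fun i => i.elim0, by ext i; exact i.elim0, fun k => k.elim0⟩
  | succ n ih =>
    intro M hM
    -- a minimal unimodular column
    obtain ⟨v, ⟨g₁, hg₁, rfl⟩, hmin⟩ := hM.exists_min
      (A := {v | ∃ g, IsGL g ∧ v = g *ᵥ (Pi.single 0 1)}) (by
        rintro _ ⟨g, hg, rfl⟩
        refine hg.mulVec fun i => ?_
        by_cases hi : i = 0
        · rw [hi, Pi.single_eq_same]; exact IsEis.one
        · rw [Pi.single_eq_of_ne hi]; exact IsEis.zero) ⟨_, 1, IsGL.one, rfl⟩
    obtain ⟨a, x₀, M', ha, hx₀, haq, hM', hdec⟩ := (hM.conj hg₁).schur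
    obtain ⟨g', x', m', hg', hm', hch, hd, hz, hs, hM'd, hlast⟩ := ih M' hM'
    -- size reduction
    choose e he1 he2 using fun j : Fin n => exists_near ((g'ᴴ *ᵥ (fun i => x₀ i.succ)) j)
    set c : Fin n → ℂ := fun j => -star (e j) with hc
    set G := up c g' with hG
    have hGL : IsGL G := up_isGL _ _ (fun j => (he1 j).star.neg) hg'
    set y : Fin (n + 1) → ℂ := Gᴴ *ᵥ x₀ with hy
    have hy0 : y 0 = 1 := by
      simp [hy, hG, mulVec, dotProduct, Fin.sum_univ_succ, hx₀]
    have hys : ∀ j : Fin n, y j.succ = (g'ᴴ *ᵥ (fun i => x₀ i.succ)) j - e j := by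
      intro j
      simp only [hy, hG, mulVec, dotProduct, Fin.sum_univ_succ, hx₀, conjTranspose_apply, up_zs,
        up_ss, hc, mul_one, star_neg, star_star]
      ring
    have hmat : (g₁ * G)ᴴ * M * (g₁ * G) = ∑ i : Fin (n + 1),
        (((Fin.cons a m' : Fin (n + 1) → ℝ) i : ℝ) : ℂ) •
          vecMulVec ((Fin.cons y (fun i => Fin.cons 0 (x' i)) : Fin (n + 1) → Fin (n + 1) → ℂ) i)
            (star ((Fin.cons y (fun i => Fin.cons 0 (x' i)) : Fin (n + 1) → Fin (n + 1) → ℂ) i)) := by
      have h1 : (g₁ * G)ᴴ * M * (g₁ * G) = Gᴴ * (g₁ᴴ * M * g₁) * G := by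
        rw [conjTranspose_mul]
        simp only [Matrix.mul_assoc]
      rw [h1, hdec, Matrix.mul_add, Matrix.add_mul, up_low, hM'd, low_sum, Fin.sum_univ_succ]
      simp only [Fin.cons_zero, Fin.cons_succ]
      congr 1
      · rw [Matrix.mul_smul, Matrix.smul_mul, mul_vecMulVec, vecMulVec_mul, hy, star_mulVec,
          conjTranspose_conjTranspose]
      · exact Finset.sum_congr rfl fun i _ => low_vec _ _
    refine ⟨g₁ * G, Fin.cons y (fun i => Fin.cons 0 (x' i)), Fin.cons a m', hg₁.mul hGL, ?_, ?_,
      ?_, ?_, ?_, hmat, ?_⟩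
    · intro i
      refine Fin.cases ?_ (fun i => ?_) i
      · exact ha
      · exact hm' i
    · intro i j hij
      refine Fin.cases (fun hij => ?_) (fun i => ?_) i hij
      · -- the first step
        obtain ⟨k, rfl⟩ : ∃ k : Fin n, j = k.succ := by
          refine ⟨⟨j - 1, ?_⟩, ?_⟩
          · have := j.2
            have h0 : ((0 : Fin (n + 1)) : ℕ) = 0 := rfl
            omega
          · ext
            have h0 : ((0 : Fin (n + 1)) : ℕ) = 0 := rfl
            simp only [Fin.val_succ]
            omega
        have hk : (k : ℕ) = 0 := by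
          have h0 : ((0 : Fin (n + 1)) : ℕ) = 0 := rfl
          simp only [Fin.val_succ] at hij
          omega
        simp only [Fin.cons_zero, Fin.cons_succ]
        -- the swap
        set P : Matrix (Fin (n + 1)) (Fin (n + 1)) ℂ :=
          (Equiv.swap (0 : Fin (n + 1)) k.succ).toPEquiv.toMatrix with hP
        have hPe : ∀ i j, IsEis (P i j) := by
          intro i j
          rw [hP, PEquiv.toMatrix_apply]
          split_ifs
          · exact IsEis.one
          · exact IsEis.zero
        have hPP : P * P = 1 := by
          rw [hP, ← PEquiv.toMatrix_trans]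
          have : (Equiv.swap (0 : Fin (n + 1)) k.succ).toPEquiv.trans
              (Equiv.swap (0 : Fin (n + 1)) k.succ).toPEquiv = PEquiv.refl _ := by
            rw [← Equiv.toPEquiv_trans]
            have : (Equiv.swap (0 : Fin (n + 1)) k.succ).trans (Equiv.swap 0 k.succ) =
                Equiv.refl _ := by
              ext i
              simp
            rw [this]
            exact Equiv.toPEquiv_refl
          rw [this, PEquiv.toMatrix_refl]
        have hPGL : IsGL P := ⟨hPe, P, hPe, hPP, hPP⟩
        have hPv : P *ᵥ (Pi.single 0 1) = Pi.single k.succ 1 := by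
          ext i
          have hiff : (0 : Fin (n + 1)) = Equiv.swap (0 : Fin (n + 1)) k.succ i ↔ i = k.succ := by
            constructor
            · intro h
              have := congrArg (Equiv.swap (0 : Fin (n + 1)) k.succ) h
              rw [Equiv.swap_apply_left, Equiv.swap_apply_self] at this
              exact this.symm
            · rintro rfl
              rw [Equiv.swap_apply_right]
          rw [mulVec_single_one, col_apply, hP, PEquiv.toMatrix_apply, Pi.single_apply]
          simp only [Equiv.toPEquiv_apply, Option.mem_def, Option.some_inj]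
          by_cases hi : i = k.succ
          · rw [if_pos (hiff.2 hi).symm, if_pos hi]
          · rw [if_neg (fun h => hi (hiff.1 h.symm)), if_neg hi]
        have h1 := hmin _ ⟨g₁ * G * P, (hg₁.mul hGL).mul hPGL, rfl⟩
        rw [← mulVec_mulVec, hPv, ← q_conj M (g₁ * G), hmat, q_dec, ← q_conj M g₁, ← haq,
          Fin.sum_univ_succ] at h1
        simp only [Fin.cons_zero, Fin.cons_succ] at h1
        have h2 : ∀ w : Fin (n + 1) → ℂ, Complex.normSq (star w ⬝ᵥ (Pi.single k.succ 1)) =
            Complex.normSq (w k.succ) := by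
          intro w
          rw [dotProduct_single, mul_one, Pi.star_apply]
          exact Complex.normSq_conj _
        rw [h2] at h1
        have h3 : ∑ i : Fin n, m' i * Complex.normSq (star (Fin.cons 0 (x' i) : Fin (n + 1) → ℂ) ⬝ᵥ
            (Pi.single k.succ 1)) = m' k := by
          rw [Finset.sum_eq_single k]
          · rw [h2, Fin.cons_succ, hd]
            simp
          · intro i _ hik
            rw [h2, Fin.cons_succ, hz i k (by
              rw [Fin.lt_def, hk]
              exact Nat.pos_of_ne_zero fun h => hik (Fin.ext (by rw [h, hk])))]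
            simp
          · intro h
            exact absurd (Finset.mem_univ k) h
        rw [h3, hys] at h1
        have h4 := he2 k
        have h5 : a * Complex.normSq ((g'ᴴ *ᵥ fun i => x₀ i.succ) k - e k) ≤ a * (1 / 3) :=
          mul_le_mul_of_nonneg_left h4 ha.le
        linarith
      · intro hij
        obtain ⟨k, rfl⟩ : ∃ k : Fin n, j = k.succ := by
          refine ⟨⟨j - 1, ?_⟩, ?_⟩
          · have := j.2
            omega
          · ext
            simp only [Fin.val_succ] at hij ⊢
            omega
        simp only [Fin.cons_succ]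
        apply hch
        simp only [Fin.val_succ] at hij
        omega
    · intro i
      refine Fin.cases ?_ (fun i => ?_) i
      · exact hy0
      · simp only [Fin.cons_succ]
        exact hd i
    · intro i j hij
      refine Fin.cases (fun hij => ?_) (fun i => ?_) i hij
      · exact absurd hij (by simp)
      · intro hij
        refine Fin.cases (fun hij => ?_) (fun j => ?_) j hij
        · simp only [Fin.cons_succ, Fin.cons_zero]
        · intro hij
          simp only [Fin.cons_succ]
          exact hz i j (by simpa using hij)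
    · intro i j hij
      refine Fin.cases (fun hij => ?_) (fun i => ?_) i hij
      · refine Fin.cases (fun hij => ?_) (fun j => ?_) j hij
        · exact absurd hij (by simp)
        · intro _
          simp only [Fin.cons_zero]
          rw [hys]
          exact he2 j
      · intro hij
        refine Fin.cases (fun hij => ?_) (fun j => ?_) j hij
        · exact absurd hij (by simp)
        · intro hij
          simp only [Fin.cons_succ]
          exact hs i j (by simpa using hij)
    · intro k
      refine Fin.cases ?_ (fun k => ?_) k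
      · rintro w hw ⟨j, -, hwj⟩
        have hfil : Finset.univ.filter ((0 : Fin (n + 1)) ≤ ·) = Finset.univ := by
          ext i; simp
        have hw0 : w ≠ 0 := by
          rintro rfl; exact hwj rfl
        have hGG : IsGL (g₁ * G) := hg₁.mul hGL
        obtain ⟨h, c', hh, hc', hc0, heq⟩ := hU n _ (hGG.mulVec hw) (hGG.mulVec_ne hw0)
        rw [hfil, ← q_dec (Fin.cons a m') (Fin.cons y (fun i => Fin.cons 0 (x' i))) w, ← hmat,
          q_conj, heq, q_smul_vec, Fin.cons_zero]
        have h1 := hmin _ ⟨h, hh, rfl⟩
        rw [haq, q_conj]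
        have h2 : (1 : ℝ) ≤ Complex.normSq c' := hc'.one_le_normSq hc0
        have h3 : 0 ≤ q M (h *ᵥ Pi.single 0 1) := hM.psd.2 _
        nlinarith
      · rintro w hw ⟨j, hkj, hwj⟩
        obtain ⟨j', rfl⟩ : ∃ j' : Fin n, j = j'.succ := by
          refine ⟨j.pred ?_, (Fin.succ_pred _ _).symm⟩
          rintro rfl
          exact absurd hkj (by simp)
        have h1 := hlast k (fun i => w i.succ) (fun i => hw _) ⟨j', by simpa using hkj, hwj⟩
        rw [Finset.sum_filter] at h1 ⊢
        rw [Fin.sum_univ_succ]
        simp only [Fin.cons_succ, Fin.succ_le_succ_iff]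
        rw [if_neg (by simp), zero_add]
        refine h1.trans (le_of_eq ?_)
        refine Finset.sum_congr rfl fun i _ => ?_
        have h2 : star (Fin.cons 0 (x' i) : Fin (n + 1) → ℂ) ⬝ᵥ w =
            star (x' i) ⬝ᵥ (fun i => w i.succ) := by
          simp [dotProduct, Fin.sum_univ_succ]
        rw [h2]

theorem t_HKZ : Pool.Agent.K3h69.KB.S_UNI → Pool.Agent.K3h69.KB.S_HKZ := fun hU => exists_hkz hU

end Pool.Agent.K3h41.KB
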